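import Mathlib

set_option autoImplicit false

namespace Pool.Agent.H.MP_aca27d_an

open Set Cardinal
open scoped ENNReal

theorem wf_choice {I A : Type} [LinearOrder I] [WellFoundedLT I] [Nonempty A]
    (P : (t : I) → (I → A) → A → Prop)
    (hloc : ∀ t f g a, (∀ u, u < t → f u = g u) → P t f a → P t g a)
    (hstep : ∀ t f, (∀ u, u < t → P u f (f u)) → ∃ a, P t f a) :
    ∃ f : I → A, ∀ t, P t f (f t) := by
  classical
  let ext : (t : I) → ((u : I) → u < t → A) → I → A :=
    fun t h u => if hu : u < t then h u hu else Classical.arbitrary A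
  let F : (t : I) → ((u : I) → u < t → A) → A :=
    fun t h => Classical.epsilon (fun a => P t (ext t h) a)
  let f : I → A := (wellFounded_lt (α := I)).fix F
  have hf : ∀ t, f t = F t (fun u _ => f u) := fun t => WellFounded.fix_eq _ F t
  refine ⟨f, fun t => ?_⟩
  induction t using (wellFounded_lt (α := I)).induction with
  | _ t ih =>
    have he : ∀ u, u < t → f u = ext t (fun u _ => f u) u := fun u hu => by
      simp only [ext, dif_pos hu]
    obtain ⟨a, ha⟩ := hstep t f ih
    have h1 : ∃ a, P t (ext t (fun u _ => f u)) a := ⟨a, hloc t _ _ a he ha⟩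
    have h2 := Classical.epsilon_spec h1
    rw [hf t]
    exact hloc t _ _ _ (fun u hu => (he u hu).symm) h2

theorem recur {K C X : Type} [DecidableEq K] [Zero X] [Nonempty C] [Nonempty K]
    (hK : #K = continuum) (hC : #C ≤ continuum)
    (Adm : K → X → Prop) (h0 : ∀ p, Adm p 0) (Good : C → K → X → K → X → Prop)
    (step : ∀ c p (y : K → X), (∀ q, Adm q (y q)) →
      ∃ x q, Adm p x ∧ Good c p x q (Function.update y p x q)) :
    ∃ x : K → X, (∀ p, Adm p (x p)) ∧
      ∀ c, ¬ {p | ∃ q, Good c p (x p) q (x q)}.Countable := by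
  classical
  let I := (continuum.{0}).ord.ToType
  have hI : #(C × ℝ) ≤ #I := by
    rw [mk_ord_toType, mk_prod, lift_id, lift_id, mk_real]
    calc #C * continuum ≤ continuum * continuum := by gcongr
      _ = continuum := continuum_mul_self
  obtain ⟨ι⟩ := (Cardinal.le_def _ _).1 hI
  let e : I → C × ℝ := Function.invFun ι
  have he : ∀ z, e (ι z) = z := Function.leftInverse_invFun ι.injective
  let P : (t : I) → (I → K × X × K) → K × X × K → Prop := fun t f a =>
    (∀ u, u < t → a.1 ≠ (f u).1 ∧ a.1 ≠ (f u).2.2) ∧ Adm a.1 a.2.1 ∧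
      ∃ z, Good (e t).1 a.1 a.2.1 a.2.2 z ∧ (a.2.2 = a.1 → z = a.2.1) ∧
        (∀ u, u < t → (f u).1 = a.2.2 → z = (f u).2.1) ∧
        (a.2.2 ≠ a.1 → (∀ u, u < t → (f u).1 ≠ a.2.2) → z = 0)
  have hloc : ∀ t f g a, (∀ u, u < t → f u = g u) → P t f a → P t g a := by
    rintro t f g a h ⟨h1, h2, z, h3, h4, h5, h6⟩
    refine ⟨fun u hu => h u hu ▸ h1 u hu, h2, z, h3, h4, fun u hu => h u hu ▸ h5 u hu,
      fun ha hb => h6 ha fun u hu => ?_⟩
    rw [h u hu]; exact hb u hu
  have hstep : ∀ t f, (∀ u, u < t → P u f (f u)) → ∃ a, P t f a := by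
    intro t f ih
    have hlt : #(↥((fun u => (f u).1) '' Iio t ∪ (fun u => (f u).2.2) '' Iio t)) < #K := by
      rw [hK]
      refine (mk_union_le _ _).trans_lt (add_lt_of_lt aleph0_le_continuum ?_ ?_) <;>
        exact mk_image_le.trans_lt (mk_Iio_toType_ord_lt t)
    obtain ⟨p, hp⟩ : ∃ p, p ∉ (fun u => (f u).1) '' Iio t ∪ (fun u => (f u).2.2) '' Iio t := by
      by_contra h
      push Not at h
      rw [eq_univ_of_forall h, mk_univ] at hlt
      exact lt_irrefl _ hlt
    have hinj : ∀ u v, u < t → v < t → (f u).1 = (f v).1 → u = v := by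
      intro u v hu hv h
      rcases lt_trichotomy u v with h' | h' | h'
      · exact absurd h.symm ((ih v hv).1 u h').1
      · exact h'
      · exact absurd h ((ih u hu).1 v h').1
    let y : K → X := fun q => if h : ∃ u, u < t ∧ (f u).1 = q then (f h.choose).2.1 else 0
    have hy : ∀ u, u < t → y (f u).1 = (f u).2.1 := by
      intro u hu
      have h : ∃ v, v < t ∧ (f v).1 = (f u).1 := ⟨u, hu, rfl⟩
      simp only [y, dif_pos h]
      rw [hinj _ _ h.choose_spec.1 hu h.choose_spec.2]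
    have hy0 : ∀ q, (∀ u, u < t → (f u).1 ≠ q) → y q = 0 := by
      intro q hq
      have h : ¬ ∃ v, v < t ∧ (f v).1 = q := fun ⟨v, h1, h2⟩ => hq v h1 h2
      simp only [y, dif_neg h]
    have hya : ∀ q, Adm q (y q) := by
      intro q
      by_cases h : ∃ u, u < t ∧ (f u).1 = q
      · obtain ⟨u, hu, rfl⟩ := h
        rw [hy u hu]; exact (ih u hu).2.1
      · rw [hy0 q fun u hu hq => h ⟨u, hu, hq⟩]; exact h0 q
    obtain ⟨x, q, hx, hg⟩ := step (e t).1 p y hya
    have hp1 : ∀ u, u < t → p ≠ (f u).1 := fun u hu h => hp (Or.inl ⟨u, hu, h.symm⟩)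
    refine ⟨(p, x, q), fun u hu => ⟨hp1 u hu, fun h => hp (Or.inr ⟨u, hu, h.symm⟩)⟩, hx, _, hg,
      ?_, ?_, ?_⟩
    · intro h
      dsimp only at h ⊢
      rw [h, Function.update_self]
    · intro u hu h
      dsimp only at h ⊢
      rw [← h, Function.update_of_ne (hp1 u hu).symm, hy u hu]
    · intro h1 h2
      dsimp only at h1 h2 ⊢
      rw [Function.update_of_ne h1, hy0 q h2]
  obtain ⟨f, hf⟩ := wf_choice P hloc hstep
  have hinj : ∀ u v, (f u).1 = (f v).1 → u = v := by
    intro u v h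
    rcases lt_trichotomy u v with h' | h' | h'
    · exact absurd h.symm ((hf v).1 u h').1
    · exact h'
    · exact absurd h ((hf u).1 v h').1
  let y : K → X := fun q => if h : ∃ u, (f u).1 = q then (f h.choose).2.1 else 0
  have hy : ∀ u, y (f u).1 = (f u).2.1 := by
    intro u
    have h : ∃ v, (f v).1 = (f u).1 := ⟨u, rfl⟩
    simp only [y, dif_pos h]
    rw [hinj _ _ h.choose_spec]
  have hy0 : ∀ q, (∀ u, (f u).1 ≠ q) → y q = 0 := by
    intro q hq
    have h : ¬ ∃ v, (f v).1 = q := fun ⟨v, h2⟩ => hq v h2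
    simp only [y, dif_neg h]
  refine ⟨y, fun q => ?_, fun c hc => ?_⟩
  · by_cases h : ∃ u, (f u).1 = q
    · obtain ⟨u, rfl⟩ := h
      rw [hy u]; exact (hf u).2.1
    · rw [hy0 q fun u hq => h ⟨u, hq⟩]; exact h0 q
  · have hsub : range (fun r : ℝ => (f (ι (c, r))).1) ⊆ {p | ∃ q, Good c p (y p) q (y q)} := by
      rintro _ ⟨r, rfl⟩
      obtain ⟨-, -, z, h3, h4, h5, h6⟩ := hf (ι (c, r))
      refine ⟨(f (ι (c, r))).2.2, ?_⟩
      have hz : y (f (ι (c, r))).2.2 = z := by
        by_cases h : ∃ u, (f u).1 = (f (ι (c, r))).2.2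
        · obtain ⟨u, hu⟩ := h
          rcases lt_trichotomy u (ι (c, r)) with h' | h' | h'
          · rw [h5 u h' hu, ← hu, hy]
          · subst h'
            rw [h4 hu.symm, ← hu, hy]
          · exact absurd hu ((hf u).1 _ h').2
        · rw [hy0 _ fun u hu => h ⟨u, hu⟩, h6 (fun h' => h ⟨_, h'.symm⟩) fun u _ hu => h ⟨u, hu⟩]
      rw [he] at h3
      beta_reduce
      rw [hy, hz]; exact h3
    have hc2 := hc.mono hsub
    have hi : Function.Injective (fun r : ℝ => (f (ι (c, r))).1) := by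
      intro r s h
      have := ι.injective (hinj _ _ h)
      exact (Prod.ext_iff.1 this).2
    rw [← image_univ] at hc2
    exact not_countable_real ((countable_of_injective_of_countable_image hi.injOn hc2))

theorem rosenthal (ε : ℝ≥0∞) (N : ℕ) : ∀ a : ℕ → ℕ → ℝ≥0∞, (∀ k, a k k = 0) →
    (∀ k, ∑' j, a k j ≤ N * ε) → ε ≠ ⊤ →
    ∃ s : ℕ → ℕ, Function.Injective s ∧ ∀ k, ∑' j, a (s k) (s j) ≤ ε := by
  induction N with
  | zero =>
    intro a _ h _
    exact ⟨id, Function.injective_id, fun k => (h k).trans (by simp)⟩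
  | succ N ih =>
    intro a h0 h hε
    by_contra hc
    push Not at hc
    have hi : ∀ i, Function.Injective (Nat.pair i) := fun i x y hxy => (Nat.pair_eq_pair.1 hxy).2
    choose k hk using fun i => hc (Nat.pair i) (hi i)
    let t : ℕ → ℕ := fun i => Nat.pair i (k i)
    have ht : Function.Injective t := fun x y hxy => (Nat.pair_eq_pair.1 hxy).1
    have key : ∀ i, ∑' j, a (t i) (t j) ≤ N * ε := by
      intro i
      have h1 : ∑' j, a (t i) (t j) + ∑' j, a (t i) (Nat.pair i j) ≤ (N + 1 : ℕ) * ε := by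
        refine le_trans ?_ (h (t i))
        rw [← Nat.pairEquiv.tsum_eq (fun j => a (t i) j), ENNReal.tsum_prod', ENNReal.tsum_eq_add_tsum_ite (f := fun l => ∑' j, a (t i) (Nat.pairEquiv (l, j))) i,
          ENNReal.tsum_eq_add_tsum_ite (f := fun j => a (t i) (t j)) i, h0, zero_add, add_comm]
        refine add_le_add le_rfl (ENNReal.tsum_le_tsum fun l => ?_)
        split_ifs
        · exact le_rfl
        · exact ENNReal.le_tsum (f := fun j => a (t i) (Nat.pairEquiv (l, j))) (k l)
      have h2 : ∑' j, a (t i) (t j) + ε ≤ N * ε + ε := by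
        calc _ ≤ ∑' j, a (t i) (t j) + ∑' j, a (t i) (Nat.pair i j) := by
              gcongr; exact (hk i).le
          _ ≤ _ := h1
          _ = _ := by push_cast; ring
      exact (ENNReal.add_le_add_iff_right hε).1 h2
    obtain ⟨s, hs, hs2⟩ := ih (fun i j => a (t i) (t j)) (fun i => h0 _) key hε
    obtain ⟨l, hl⟩ := hc (t ∘ s) (ht.comp hs)
    exact absurd (hs2 l) (not_le.2 hl)

end Pool.Agent.H.MP_aca27d_an
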