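import Mathlib
import Pool.Agent.H.MP_aca27d_an.A

set_option autoImplicit false

namespace Pool.Agent.H.MP_aca27d_an

open Set Filter Topology BoundedContinuousFunction
open scoped ENNReal

abbrev V := Fin 3 → ℝ
abbrev G := ℕ →ᵇ V
abbrev L := V →L[ℝ] V
abbrev K := Set.Icc (0 : ℝ) 1

noncomputable def pt (n : ℕ) : K := TopologicalSpace.denseSeq K (Nat.unpair n).1

noncomputable def FF (p : K) : Filter ℕ := cofinite ⊓ comap pt (𝓝 p)

def Adm (p : K) (x : G) : Prop := ‖x‖ ≤ 1 ∧ Tendsto pt (cofinite ⊓ 𝓟 {n | x n ≠ 0}) (𝓝 p)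

theorem adm_zero (p : K) : Adm p 0 := ⟨by simp, by simp⟩

theorem exists_seq (p : K) : ∃ n : ℕ → ℕ, Function.Injective n ∧ Tendsto (pt ∘ n) atTop (𝓝 p) := by
  obtain ⟨u, hu, hl⟩ := mem_closure_iff_seq_limit.1 (TopologicalSpace.denseRange_denseSeq K p)
  choose d hd using hu
  refine ⟨fun k => Nat.pair (d k) k, fun a b h => (Nat.pair_eq_pair.1 h).2, hl.congr fun k => ?_⟩
  simp [pt, hd]

theorem adm_ev {p q : K} {x : G} (h : Adm p x) (hq : q ≠ p) : ∀ᶠ n in FF q, x n = 0 := by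
  have : FF q ⊓ 𝓟 {n | x n ≠ 0} = ⊥ := by
    by_contra hc
    haveI : (FF q ⊓ 𝓟 {n | x n ≠ 0}).NeBot := ⟨hc⟩
    refine hq (tendsto_nhds_unique (f := pt) (l := FF q ⊓ 𝓟 {n | x n ≠ 0}) ?_ ?_)
    · exact tendsto_comap.mono_left (inf_le_left.trans inf_le_right)
    · exact h.2.mono_left (inf_le_inf_right _ inf_le_left)
  rw [inf_principal_eq_bot] at this
  filter_upwards [this] with n hn
  simpa using hn

theorem adm_fin {p q : K} {x y : G} (h : Adm p x) (h' : Adm q y) (hq : p ≠ q) :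
    {n | x n ≠ 0 ∧ y n ≠ 0}.Finite := by
  have : cofinite ⊓ 𝓟 {n | x n ≠ 0 ∧ y n ≠ 0} = ⊥ := by
    by_contra hc
    haveI : (cofinite ⊓ 𝓟 {n | x n ≠ 0 ∧ y n ≠ 0}).NeBot := ⟨hc⟩
    refine hq (tendsto_nhds_unique (f := pt) (l := cofinite ⊓ 𝓟 {n | x n ≠ 0 ∧ y n ≠ 0}) ?_ ?_)
    · exact h.2.mono_left (inf_le_inf_left _ (principal_mono.2 fun n hn => hn.1))
    · exact h'.2.mono_left (inf_le_inf_left _ (principal_mono.2 fun n hn => hn.2))
  rw [inf_principal_eq_bot, mem_cofinite, compl_compl] at this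
  exact this

noncomputable def ap (x : G) : L →ₗ[ℝ] G where
  toFun A := A.compLeftContinuousBounded ℕ x
  map_add' A B := by ext; simp
  map_smul' c A := by ext; simp

@[simp] theorem ap_apply (x : G) (A : L) (n : ℕ) : ap x A n = A (x n) := rfl

def Z (p : K) : Submodule ℝ G where
  carrier := {f | Tendsto f (FF p) (𝓝 0)}
  add_mem' := fun {a b} ha hb => by
    have := Tendsto.add ha hb
    rw [add_zero] at this
    exact this
  zero_mem' := tendsto_const_nhds
  smul_mem' := fun c a ha => by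
    have := Tendsto.const_smul ha c
    rw [smul_zero] at this
    exact this

theorem Z_closed (p : K) : IsClosed (Z p : Set G) := by
  refine isClosed_of_closure_subset fun f hf => ?_
  show Tendsto f (FF p) (𝓝 0)
  rw [Metric.tendsto_nhds]
  intro ε hε
  obtain ⟨g, hg, hd⟩ := Metric.mem_closure_iff.1 hf (ε / 2) (half_pos hε)
  filter_upwards [Metric.tendsto_nhds.1 hg (ε / 2) (half_pos hε)] with n hn
  have := dist_triangle (f n) (g n) 0
  have := dist_coe_le_dist (f := f) (g := g) n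
  linarith

noncomputable def Sp (x : K → G) (S : Submodule ℝ L) : Submodule ℝ G :=
  ⨅ p, Z p ⊔ S.map (ap (x p))

theorem Sp_closed (x : K → G) (S : Submodule ℝ L) : IsClosed (Sp x S : Set G) := by
  rw [Sp, Submodule.coe_iInf]
  exact isClosed_iInter fun p => Submodule.isClosed_sup_finiteDimensional _ _ (Z_closed p)

instance (x : K → G) (S : Submodule ℝ L) : CompleteSpace (Sp x S) :=
  (Sp_closed x S).completeSpace_coe

theorem mem_Sp {x : K → G} {S : Submodule ℝ L} {f : G} :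
    f ∈ Sp x S ↔ ∀ p, ∃ A ∈ S, Tendsto (fun n => f n - A (x p n)) (FF p) (𝓝 0) := by
  rw [Sp, Submodule.mem_iInf]
  refine forall_congr' fun p => ?_
  rw [Submodule.mem_sup]
  constructor
  · rintro ⟨y, hy, _, ⟨A, hA, rfl⟩, rfl⟩
    exact ⟨A, hA, Tendsto.congr (fun n => by simp) hy⟩
  · rintro ⟨A, hA, h⟩
    exact ⟨f - ap (x p) A, h, _, ⟨A, hA, rfl⟩, by simp⟩

noncomputable def sg (n : ℕ) : V →L[ℝ] G :=
  LinearMap.mkContinuous
    { toFun := fun v => ofNormedAddCommGroupDiscrete (fun m => if m = n then v else 0) ‖v‖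
        (fun m => by split_ifs <;> simp)
      map_add' := fun v w => by
        ext1 m
        simp only [coe_ofNormedAddCommGroupDiscrete, coe_add, Pi.add_apply]
        split_ifs <;> simp
      map_smul' := fun c v => by
        ext1 m
        simp only [coe_ofNormedAddCommGroupDiscrete, coe_smul, RingHom.id_apply]
        split_ifs <;> simp } 1
    (fun v => by
      rw [one_mul, norm_le (norm_nonneg v)]
      intro m
      simp only [LinearMap.coe_mk, AddHom.coe_mk, coe_ofNormedAddCommGroupDiscrete]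
      split_ifs <;> simp)

theorem sg_apply (n m : ℕ) (v : V) : sg n v m = if m = n then v else 0 := rfl

theorem norm_le_sg (n : ℕ) (v : V) : ‖v‖ ≤ ‖sg n v‖ := by
  simpa [sg_apply] using norm_coe_le_norm (sg n v) n

theorem sg_mem (x : K → G) (S : Submodule ℝ L) (n : ℕ) (v : V) : sg n v ∈ Sp x S := by
  refine mem_Sp.2 fun p => ⟨0, S.zero_mem, tendsto_const_nhds.congr' ?_⟩
  filter_upwards [(eventually_cofinite_ne n).filter_mono (inf_le_left : FF p ≤ cofinite)] with m hm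
  simp [sg_apply, hm]

theorem ap_mem {x : K → G} (hx : ∀ p, Adm p (x p)) {S : Submodule ℝ L} {A : L} (hA : A ∈ S)
    (p : K) : ap (x p) A ∈ Sp x S := by
  refine mem_Sp.2 fun q => ?_
  by_cases h : q = p
  · subst h
    exact ⟨A, hA, by simpa using tendsto_const_nhds⟩
  · refine ⟨0, S.zero_mem, tendsto_const_nhds.congr' ?_⟩
    filter_upwards [adm_ev (hx p) h] with m hm
    simp [hm]

theorem sum_sg (t : Finset ℕ) (y : ℕ → V) (m : ℕ) :
    (∑ n ∈ t, sg n (y n)) m = if m ∈ t then y m else 0 := by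
  rw [BoundedContinuousFunction.sum_apply]
  simp [sg_apply]

theorem rows (φ : G →L[ℝ] ℝ) (y : ℕ → V) {R : ℝ} (hy : ∀ n, ‖y n‖ ≤ R) (t : Finset ℕ) :
    ∑ n ∈ t, |φ (sg n (y n))| ≤ ‖φ‖ * R := by
  have hR : 0 ≤ R := (norm_nonneg _).trans (hy 0)
  have h1 : ∑ n ∈ t, |φ (sg n (y n))| =
      φ (∑ n ∈ t, sg n ((SignType.sign (φ (sg n (y n))) : ℝ) • y n)) := by
    rw [map_sum]
    refine Finset.sum_congr rfl fun n _ => ?_
    rw [map_smul, map_smul, smul_eq_mul, sign_mul_self]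
  rw [h1]
  refine (le_abs_self _).trans (φ.le_of_opNorm_le_of_le le_rfl ?_)
  rw [norm_le hR]
  intro m
  rw [sum_sg]
  split_ifs
  · rw [norm_smul]
    refine (mul_le_of_le_one_left (norm_nonneg _) ?_).trans (hy m)
    rcases SignType.sign (φ (sg m (y m))) <;> simp
  · simpa

theorem cnt1 (φ : G →L[ℝ] ℝ) (y : K → G) {R : ℝ} (hy : ∀ p, ‖y p‖ ≤ R)
    (hf : ∀ p q, p ≠ q → {n | y p n ≠ 0 ∧ y q n ≠ 0}.Finite) :
    {p | φ (y p) ≠ ∑' n, φ (sg n (y p n))}.Countable := by
  classical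
  have hR : 0 ≤ R := (norm_nonneg _).trans (hy 0)
  obtain ⟨ψ, hψ⟩ : ∃ ψ : K → ℝ, ψ = fun p => φ (y p) - ∑' n, φ (sg n (y p n)) := ⟨_, rfl⟩
  have hs : ∀ p, Summable fun n => φ (sg n (y p n)) := fun p =>
    Summable.of_abs (summable_of_sum_le (fun _ => abs_nonneg _)
      (rows φ (y p) fun n => (norm_coe_le_norm _ n).trans (hy p)))
  have key : ∀ s : Finset K, ∑ p ∈ s, |ψ p| ≤ ‖φ‖ * R := by
    intro s
    have h1 : Tendsto (fun t : Finset ℕ => φ (∑ p ∈ s, (SignType.sign (ψ p) : ℝ) •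
        (y p - ∑ n ∈ t, sg n (y p n)))) atTop (𝓝 (∑ p ∈ s, |ψ p|)) := by
      simp only [map_sum, map_smul, map_sub, smul_eq_mul]
      refine tendsto_finsetSum _ fun p _ => ?_
      rw [← sign_mul_self]
      refine Tendsto.const_mul _ ?_
      rw [hψ]
      exact tendsto_const_nhds.sub (hs p).hasSum
    have hfin : (⋃ p ∈ s, ⋃ q ∈ s, {n | p ≠ q ∧ y p n ≠ 0 ∧ y q n ≠ 0}).Finite := by
      refine s.finite_toSet.biUnion fun p _ => s.finite_toSet.biUnion fun q _ => ?_
      by_cases h : p = q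
      · simp [h]
      · exact (hf p q h).subset fun n hn => hn.2
    refine le_of_tendsto h1 ?_
    filter_upwards [eventually_ge_atTop hfin.toFinset] with t ht
    refine (le_abs_self _).trans (φ.le_of_opNorm_le_of_le le_rfl ?_)
    rw [norm_le hR]
    intro m
    rw [BoundedContinuousFunction.sum_apply]
    simp only [coe_smul, coe_sub, Pi.sub_apply, sum_sg]
    by_cases hm : m ∈ t
    · simp [hm, hR]
    simp only [hm, if_false, sub_zero]
    by_cases h : ∃ p ∈ s, y p m ≠ 0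
    · obtain ⟨p, hp, hpm⟩ := h
      rw [Finset.sum_eq_single p]
      · rw [norm_smul]
        refine (mul_le_of_le_one_left (norm_nonneg _) ?_).trans
          ((norm_coe_le_norm _ m).trans (hy p))
        rcases SignType.sign (ψ p) <;> simp
      · intro q hq hqp
        have : y q m = 0 := by
          by_contra hc
          refine hm (ht ?_)
          simp only [Finite.mem_toFinset, mem_iUnion]
          exact ⟨q, hq, p, hp, hqp, hc, hpm⟩
        simp [this]
      · exact fun h => absurd hp h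
    · push Not at h
      rw [Finset.sum_eq_zero fun p hp => by simp [h p hp]]
      simpa
  have h2 := (Summable.of_abs (summable_of_sum_le (fun _ => abs_nonneg _) key)).countable_support
  refine h2.mono fun p hp => ?_
  rw [hψ]
  exact sub_ne_zero.2 hp

theorem norm_le_sum (D : L) : ‖D‖ ≤ ∑ i, ‖D (Pi.single i 1)‖ := by
  refine D.opNorm_le_bound (by positivity) fun v => ?_
  have h : v = ∑ i, v i • (Pi.single i 1 : V) := by
    ext j; simp [Pi.single_apply]
  conv_lhs => rw [h, map_sum]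
  rw [Finset.sum_mul]
  refine norm_sum_le_of_le _ fun i _ => ?_
  rw [map_smul, norm_smul, mul_comm]
  gcongr
  exact norm_le_pi_norm v i

theorem rowsV (Φ : G →L[ℝ] V) (t : Finset ℕ) : ∑ n ∈ t, ‖Φ ∘L sg n‖ ≤ 9 * ‖Φ‖ := by
  have h1 : ∀ w : V, ‖w‖ ≤ ∑ j, |w j| := fun w =>
    (pi_norm_le_iff_of_nonneg (by positivity)).2 fun j =>
      Finset.single_le_sum (f := fun j => |w j|) (fun _ _ => abs_nonneg _) (Finset.mem_univ j)
  have h2 : ∀ i j : Fin 3, ∑ n ∈ t, |Φ (sg n (Pi.single i 1)) j| ≤ ‖Φ‖ := by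
    intro i j
    have := rows ((ContinuousLinearMap.proj j : V →L[ℝ] ℝ) ∘L Φ) (fun _ => Pi.single i 1) (R := 1)
      (fun _ => by simp [Pi.norm_single]) t
    refine this.trans ?_
    rw [mul_one]
    exact ContinuousLinearMap.opNorm_le_bound _ (norm_nonneg Φ) fun f =>
      (norm_le_pi_norm (Φ f) j).trans (Φ.le_opNorm f)
  calc ∑ n ∈ t, ‖Φ ∘L sg n‖ ≤ ∑ n ∈ t, ∑ i : Fin 3, ∑ j, |Φ (sg n (Pi.single i 1)) j| :=
        Finset.sum_le_sum fun n _ => (norm_le_sum _).trans (Finset.sum_le_sum fun i _ => h1 _)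
    _ = ∑ i : Fin 3, ∑ j, ∑ n ∈ t, |Φ (sg n (Pi.single i 1)) j| := by
        rw [Finset.sum_comm]
        exact Finset.sum_congr rfl fun i _ => Finset.sum_comm
    _ ≤ ∑ i : Fin 3, ∑ j : Fin 3, ‖Φ‖ :=
        Finset.sum_le_sum fun i _ => Finset.sum_le_sum fun j _ => h2 i j
    _ = _ := by simp; ring

theorem cnt (Φ : G →L[ℝ] V) (y : K → G) {R : ℝ} (hy : ∀ p, ‖y p‖ ≤ R)
    (hf : ∀ p q, p ≠ q → {n | y p n ≠ 0 ∧ y q n ≠ 0}.Finite) :
    {p | Φ (y p) ≠ ∑' n, Φ (sg n (y p n))}.Countable := by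
  refine (countable_iUnion fun j =>
    cnt1 ((ContinuousLinearMap.proj j : V →L[ℝ] ℝ) ∘L Φ) y hy hf).mono fun p hp => ?_
  by_contra hc
  simp only [mem_iUnion, mem_ofPred_eq, not_exists, not_not] at hc
  refine hp (funext fun j => ?_)
  have hs : Summable fun n => Φ (sg n (y p n)) := by
    refine Summable.of_norm_bounded (g := fun n => ‖Φ ∘L sg n‖ * R)
      ((summable_of_sum_le (fun _ => norm_nonneg _) (rowsV Φ)).mul_right R) fun n => ?_
    exact (Φ ∘L sg n).le_of_opNorm_le_of_le le_rfl ((norm_coe_le_norm _ n).trans (hy p))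
  rw [tsum_apply hs]
  exact hc j

end Pool.Agent.H.MP_aca27d_an
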