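import Mathlib
import Pool.Agent.H.MP_aca27d_an.B

set_option autoImplicit false

namespace Pool.Agent.H.MP_aca27d_an

open Set Filter Topology BoundedContinuousFunction
open scoped ENNReal

theorem build (t : ℕ → ℕ → L) {M : ℝ} (hM : ∀ m (s : Finset ℕ), ∑ n ∈ s, ‖t m n‖ ≤ M)
    {p : K} {n : ℕ → ℕ} (hn : Function.Injective n) (hp : Tendsto (pt ∘ n) atTop (𝓝 p))
    (m : ℕ → ℕ) {ε : ℝ} (hε : 0 < ε) (u : ℕ → V) (hu : ∀ c, ‖u c‖ ≤ 1) :
    ∃ (x : G) (s : ℕ → ℕ → ℕ), (∀ c, Function.Injective (s c)) ∧ Adm p x ∧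
      (∀ c i, x (n (s c i)) = u c) ∧ (∀ c i, m (s c i) ≠ n (s c i) → x (m (s c i)) = 0) ∧
      ∀ (A : L) c i, ‖∑' l, t (m (s c i)) l (A (x l)) - t (m (s c i)) (n (s c i)) (A (u c))‖
        ≤ ε * ‖A‖ := by
  classical
  have hsum : ∀ k, Summable fun l => ‖t k l‖ := fun k =>
    summable_of_sum_le (fun _ => norm_nonneg _) (hM k)
  have hM0 : 0 ≤ M := by simpa using hM 0 ∅
  obtain ⟨η, hη0, hη1, hη2⟩ : ∃ η : ℝ, 0 < η ∧ η ≤ ε ∧ η < 1 :=
    ⟨min ε (1 / 2), by positivity, min_le_left _ _, (min_le_right _ _).trans_lt (by norm_num)⟩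
  obtain ⟨N, hN⟩ := exists_nat_ge ((M + 1) / η)
  let a : ℕ → ℕ → ℝ≥0∞ := fun k j =>
    if j = k then 0 else ‖t (m k) (n j)‖ₑ + if m k = n j then 1 else 0
  have hrow : ∀ k, ∑' j, a k j ≤ N * ENNReal.ofReal η := by
    intro k
    have h1 : ∑' j, ‖t (m k) (n j)‖ₑ ≤ ENNReal.ofReal M := by
      refine (ENNReal.tsum_comp_le_tsum_of_injective hn fun l => ‖t (m k) l‖ₑ).trans ?_
      refine ENNReal.summable.tsum_le_of_sum_le fun s => ?_
      simp only [← ofReal_norm]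
      rw [← ENNReal.ofReal_sum_of_nonneg fun _ _ => norm_nonneg _]
      exact ENNReal.ofReal_le_ofReal (hM _ s)
    have h2 : ∑' j, (if m k = n j then 1 else 0 : ℝ≥0∞) ≤ 1 := by
      refine (ENNReal.tsum_comp_le_tsum_of_injective hn
        fun l => (if m k = l then 1 else 0 : ℝ≥0∞)).trans ?_
      rw [tsum_eq_single (m k) fun l hl => if_neg (Ne.symm hl)]
      simp
    calc ∑' j, a k j ≤ ∑' j, (‖t (m k) (n j)‖ₑ + if m k = n j then 1 else 0) :=
          ENNReal.tsum_le_tsum fun j => by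
            simp only [a]
            split_ifs <;> simp
      _ ≤ ENNReal.ofReal M + 1 := by rw [ENNReal.tsum_add]; exact add_le_add h1 h2
      _ = ENNReal.ofReal (M + 1) := by rw [ENNReal.ofReal_add hM0 zero_le_one]; simp
      _ ≤ ENNReal.ofReal (N * η) := ENNReal.ofReal_le_ofReal ((div_le_iff₀ hη0).1 hN)
      _ = _ := by rw [ENNReal.ofReal_mul (Nat.cast_nonneg N)]; simp
  obtain ⟨s, hs, hr⟩ := rosenthal (ENNReal.ofReal η) N a (fun k => if_pos rfl) hrow
    ENNReal.ofReal_ne_top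
  have hns : Function.Injective (n ∘ s) := hn.comp hs
  have hne : ∀ k j, j ≠ k → m (s k) ≠ n (s j) := by
    intro k j hjk h
    have h1 := (ENNReal.le_tsum (f := fun j => a (s k) (s j)) j).trans (hr k)
    simp only [a, if_neg (hs.ne hjk), if_pos h] at h1
    have h2 : (1 : ℝ≥0∞) ≤ ENNReal.ofReal η := le_add_self.trans h1
    exact absurd (ENNReal.one_le_ofReal.1 h2) (not_le.2 hη2)
  let v : ℕ → V := fun k => u (Nat.unpair k).1
  let x0 : ℕ → V := Function.extend (n ∘ s) v 0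
  have hx1 : ∀ k, x0 (n (s k)) = v k := fun k => hns.extend_apply v 0 k
  have hx2 : ∀ l, l ∉ range (n ∘ s) → x0 l = 0 := fun l hl =>
    Function.extend_apply' v (0 : ℕ → V) l hl
  have hx3 : ∀ l, ‖x0 l‖ ≤ 1 := by
    intro l
    by_cases h : l ∈ range (n ∘ s)
    · obtain ⟨k, rfl⟩ := h
      exact (hx1 k) ▸ hu _
    · rw [hx2 l h]; simp
  refine ⟨ofNormedAddCommGroupDiscrete x0 1 hx3, fun c i => s (Nat.pair c i),
    fun c i j h => (Nat.pair_eq_pair.1 (hs h)).2, ⟨(norm_le zero_le_one).2 hx3, ?_⟩,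
    fun c i => ?_, fun c i h => ?_, fun A c i => ?_⟩
  · have h1 : Tendsto (pt ∘ n ∘ s) cofinite (𝓝 p) := by
      rw [Nat.cofinite_eq_atTop]
      exact hp.comp hs.nat_tendsto_atTop
    intro U hU
    have h2 := (mem_cofinite.1 (mem_map.1 (h1 hU))).image (n ∘ s)
    rw [mem_map, mem_inf_principal, mem_cofinite]
    refine h2.subset fun l hl => ?_
    simp only [mem_compl_iff, mem_ofPred_eq, Classical.not_imp] at hl
    obtain ⟨k, rfl⟩ : l ∈ range (n ∘ s) := by
      by_contra hc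
      exact hl.1 (hx2 l hc)
    exact ⟨k, hl.2, rfl⟩
  · simp [hx1, v]
  · refine hx2 _ ?_
    rintro ⟨j, hj⟩
    by_cases h' : j = Nat.pair c i
    · exact h (by rw [← hj, h']; rfl)
    · exact hne _ j h' hj.symm
  · obtain ⟨k, hk⟩ : ∃ k, k = Nat.pair c i := ⟨_, rfl⟩
    have hv : u c = v k := by simp [v, hk]
    simp only [coe_ofNormedAddCommGroupDiscrete, ← hk, hv]
    have hb : ∀ j, ‖t (m (s k)) (n (s j)) (A (v j))‖ ≤ ‖t (m (s k)) (n (s j))‖ * ‖A‖ := fun j =>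
      (t _ _).le_of_opNorm_le_of_le le_rfl
        ((A.le_of_opNorm_le_of_le le_rfl (hu _)).trans (mul_one _).le)
    have h1 : ∑' l, t (m (s k)) l (A (x0 l)) = ∑' j, t (m (s k)) (n (s j)) (A (v j)) := by
      rw [← hns.tsum_eq (f := fun l => t (m (s k)) l (A (x0 l)))]
      · simp [hx1]
      · intro l hl
        by_contra hc
        exact hl (by simp [hx2 l hc])
    have h2 : Summable fun j => t (m (s k)) (n (s j)) (A (v j)) :=
      Summable.of_norm_bounded (((hsum (m (s k))).comp_injective hns).mul_right ‖A‖) hb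
    rw [h1, h2.tsum_eq_add_tsum_ite k, add_sub_cancel_left]
    have h3 : ‖∑' j, (if j = k then 0 else t (m (s k)) (n (s j)) (A (v j)))‖ₑ ≤
        ENNReal.ofReal (ε * ‖A‖) := by
      refine enorm_tsum_le_tsum_enorm.trans ?_
      calc _ ≤ ∑' j, a (s k) (s j) * ‖A‖ₑ := ENNReal.tsum_le_tsum fun j => by
            by_cases h : j = k
            · simp [h]
            · simp only [a, if_neg h, if_neg (hs.ne h), if_neg (hne k j h), add_zero]
              rw [← ofReal_norm, ← ofReal_norm, ← ofReal_norm,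
                ← ENNReal.ofReal_mul (norm_nonneg _)]
              exact ENNReal.ofReal_le_ofReal (hb j)
        _ ≤ ENNReal.ofReal η * ‖A‖ₑ := by rw [ENNReal.tsum_mul_right]; gcongr; exact hr k
        _ ≤ _ := by
            rw [ENNReal.ofReal_mul hε.le, ofReal_norm]
            gcongr
    rw [← ofReal_norm] at h3
    exact (ENNReal.ofReal_le_ofReal_iff (by positivity)).1 h3

theorem lim_le {z w : ℕ → V} {D : ℕ → L} {w0 a : V} {D0 B : L} {η : ℝ}
    (h1 : Tendsto (fun k => z k - B (w k)) atTop (𝓝 0)) (h2 : Tendsto w atTop (𝓝 w0))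
    (h3 : Tendsto D atTop (𝓝 D0)) (h4 : ∀ k, ‖z k - D k a‖ ≤ η) : ‖B w0 - D0 a‖ ≤ η := by
  have h5 : Tendsto (fun k => D k a) atTop (𝓝 (D0 a)) :=
    ((ContinuousLinearMap.apply ℝ V a).continuous.tendsto D0).comp h3
  have h6 := ((h1.add ((B.continuous.tendsto w0).comp h2)).sub h5).norm
  rw [zero_add] at h6
  exact le_of_tendsto' h6 fun k => by simpa using h4 k

def Cand (t : ℕ → ℕ → L) : Prop :=
  ∃ M C : ℝ, (∀ m (s : Finset ℕ), ∑ n ∈ s, ‖t m n‖ ≤ M) ∧
    ∀ n v b, (∀ m, ‖t m n v‖ ≤ b) → ‖v‖ ≤ C * b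

def Good (S0 : Set L) (S : Submodule ℝ L) (t : ℕ → ℕ → L) (x : G) (q : K) (y : G) : Prop :=
  Cand t → ∃ A ∈ S0, ∀ B ∈ S,
    ¬ Tendsto (fun m => ∑' n, t m n (A (x n)) - B (y m)) (FF q) (𝓝 0)

theorem step {S0 : Set L} {S : Submodule ℝ L}
    (H1 : ∀ D : L, D ≠ 0 → ∃ A ∈ S0, ∃ v, ‖v‖ ≤ 1 ∧ D (A v) ≠ 0)
    (H2 : ∀ D : L, (∀ v, D v = 0 → v = 0) → ∃ A ∈ S0, D ∘L A ∉ S)
    (t : ℕ → ℕ → L) (p : K) (y : K → G) (hy : ∀ q, Adm q (y q)) :
    ∃ x q, Adm p x ∧ Good S0 S t x q (Function.update y p x q) := by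
  by_cases hc : Cand t
  swap
  · exact ⟨0, p, adm_zero p, fun h => absurd h hc⟩
  obtain ⟨M, C, hM, hC⟩ := hc
  obtain ⟨n0, hn0, hp0⟩ := exists_seq p
  have hb : ∀ a b, t a b ∈ Metric.closedBall (0 : L) M := fun a b => by
    simpa using hM a {b}
  have hFF : ∀ {q : K} {m : ℕ → ℕ}, Tendsto m atTop cofinite → Tendsto (pt ∘ m) atTop (𝓝 q) →
      Tendsto m atTop (FF q) := fun h1 h2 => tendsto_inf.2 ⟨h1, tendsto_comap_iff.2 h2⟩
  by_cases hA : ∃ δ > 0, ∃ᶠ k in atTop, ∃ m, m ≠ n0 k ∧ δ ≤ ‖t m (n0 k)‖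
  · obtain ⟨δ, hδ, hA⟩ := hA
    obtain ⟨φ1, hφ1, h1⟩ := extraction_of_frequently_atTop hA
    choose m1 hm1 hm1' using h1
    obtain ⟨q, φ2, hφ2, hq⟩ := CompactSpace.tendsto_subseq (pt ∘ m1)
    obtain ⟨⟨D, w⟩, -, φ3, hφ3, hD⟩ :=
      ((isCompact_closedBall (0 : L) M).prod (isCompact_closedBall (0 : V) 1)).tendsto_subseq
        (x := fun k => (t (m1 (φ2 k)) (n0 (φ1 (φ2 k))), y q (m1 (φ2 k))))
        fun k => ⟨hb _ _, by simpa using (norm_coe_le_norm _ _).trans (hy q).1⟩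
    obtain ⟨n, hn⟩ : ∃ n : ℕ → ℕ, n = fun k => n0 (φ1 (φ2 (φ3 k))) := ⟨_, rfl⟩
    obtain ⟨m, hm⟩ : ∃ m : ℕ → ℕ, m = fun k => m1 (φ2 (φ3 k)) := ⟨_, rfl⟩
    have hni : Function.Injective n := hn ▸ hn0.comp ((hφ1.comp hφ2).comp hφ3).injective
    have hnp : Tendsto (pt ∘ n) atTop (𝓝 p) :=
      hn ▸ hp0.comp ((hφ1.comp hφ2).comp hφ3).tendsto_atTop
    have hmq : Tendsto (pt ∘ m) atTop (𝓝 q) := hm ▸ hq.comp hφ3.tendsto_atTop
    have hD1 : Tendsto (fun k => t (m k) (n k)) atTop (𝓝 D) := by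
      rw [hm, hn]; exact (continuous_fst.tendsto _).comp hD
    have hD2 : Tendsto (fun k => y q (m k)) atTop (𝓝 w) := by
      rw [hm]; exact (continuous_snd.tendsto _).comp hD
    have hmn : ∀ k, m k ≠ n k ∧ δ ≤ ‖t (m k) (n k)‖ := fun k => by
      rw [hm, hn]; exact ⟨hm1 _, hm1' _⟩
    have hmc : Tendsto m atTop cofinite := by
      intro U hU
      have h2 : ∀ᶠ k in atTop, ∀ a ∈ Uᶜ, ‖t a (n k)‖ < δ := by
        refine (eventually_all_finite hU).2 fun a _ => ?_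
        have := ((summable_of_sum_le (fun _ => norm_nonneg _) (hM a)).comp_injective
          hni).tendsto_atTop_zero
        exact this.eventually (gt_mem_nhds hδ)
      rw [mem_map]
      filter_upwards [h2] with k hk
      by_contra h
      exact absurd (hk _ h) (not_lt.2 (hmn k).2)
    have hD0 : D ≠ 0 := by
      rintro rfl
      have := ge_of_tendsto' hD1.norm fun k => (hmn k).2
      rw [norm_zero] at this
      linarith
    obtain ⟨A, hAS, v, hv, hDv⟩ := H1 D hD0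
    have hpos : 0 < ‖D (A v)‖ := norm_pos_iff.2 hDv
    obtain ⟨x, s, hs, hx, -, hx0, hz⟩ := build t hM hni hnp m
      (ε := ‖D (A v)‖ / (4 * (‖A‖ + 1))) (by positivity) (fun c => if c = 0 then v else 0)
      (fun c => by split_ifs <;> simp [hv])
    refine ⟨x, q, hx, fun _ => ⟨A, hAS, fun B _ hB => ?_⟩⟩
    obtain ⟨w', hw'⟩ : ∃ w', ∀ c, Tendsto (fun i => Function.update y p x q (m (s c i))) atTop
        (𝓝 w') := by
      by_cases h : q = p
      · refine ⟨0, fun c => tendsto_const_nhds.congr fun i => ?_⟩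
        rw [h, Function.update_self, hx0 c i (hmn _).1]
      · refine ⟨w, fun c => ?_⟩
        rw [Function.update_of_ne h]
        exact hD2.comp (hs c).nat_tendsto_atTop
    have key := fun c => lim_le ((hB.comp (hFF hmc hmq)).comp (hs c).nat_tendsto_atTop) (hw' c)
      (hD1.comp (hs c).nat_tendsto_atTop) (hz A c)
    have k0 := key 0
    have k1 := key 1
    simp only [if_true, one_ne_zero, if_false, map_zero, sub_zero] at k0 k1
    have h3 : ‖D (A v)‖ / (4 * (‖A‖ + 1)) * ‖A‖ ≤ ‖D (A v)‖ / 4 := by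
      rw [div_mul_eq_mul_div, div_le_div_iff₀ (by positivity) (by positivity)]
      nlinarith [norm_nonneg A]
    have h4 := norm_sub_le (B w') (B w' - D (A v))
    rw [sub_sub_cancel] at h4
    linarith
  · push Not at hA
    obtain ⟨D, -, φ, hφ, hD⟩ := (isCompact_closedBall (0 : L) M).tendsto_subseq
      (x := fun k => t (n0 k) (n0 k)) fun k => hb _ _
    have hinj : ∀ v, D v = 0 → v = 0 := by
      intro v hv
      have h5 : Tendsto (fun k => t (n0 (φ k)) (n0 (φ k)) v) atTop (𝓝 (D v)) :=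
        ((ContinuousLinearMap.apply ℝ V v).continuous.tendsto D).comp hD
      have hδ : 0 < 1 / (2 * (|C| + 1)) := by positivity
      have h6 := (h5.norm.add_const (1 / (2 * (|C| + 1)) * ‖v‖)).const_mul C
      have h7 := ge_of_tendsto h6 (b := ‖v‖) (by
        filter_upwards [hφ.tendsto_atTop.eventually (hA _ hδ)] with k hk
        refine hC (n0 (φ k)) v _ fun a => ?_
        by_cases h : a = n0 (φ k)
        · rw [h]; exact le_add_of_nonneg_right (by positivity)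
        · exact ((t _ _).le_of_opNorm_le (hk a h).le v).trans
            (le_add_of_nonneg_left (norm_nonneg _)))
      rw [hv, norm_zero, zero_add] at h7
      have h8 : C * (1 / (2 * (|C| + 1))) ≤ 1 / 2 := by
        rw [mul_one_div, div_le_div_iff₀ (by positivity) (by positivity)]
        linarith [le_abs_self C]
      rw [← mul_assoc] at h7
      have := mul_le_mul_of_nonneg_right h8 (norm_nonneg v)
      exact norm_le_zero_iff.1 (by linarith)
    obtain ⟨A, hAS, hDA⟩ := H2 D hinj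
    obtain ⟨r, hr, hball⟩ := Metric.isOpen_iff.1 S.closed_of_finiteDimensional.isOpen_compl _ hDA
    have hni : Function.Injective (n0 ∘ φ) := hn0.comp hφ.injective
    have hnp : Tendsto (pt ∘ n0 ∘ φ) atTop (𝓝 p) := hp0.comp hφ.tendsto_atTop
    obtain ⟨x, s, hs, hx, hxu, -, hz⟩ := build t hM hni hnp (n0 ∘ φ)
      (ε := r / (4 * (‖A‖ + 1))) (by positivity) (fun c => Pi.single (Fin.ofNat 3 c) 1)
      (fun c => by simp [Pi.norm_single])
    refine ⟨x, p, hx, fun _ => ⟨A, hAS, fun B hBS hB => ?_⟩⟩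
    rw [Function.update_self] at hB
    have hnc : Tendsto (n0 ∘ φ) atTop cofinite := by
      rw [Nat.cofinite_eq_atTop]; exact hni.nat_tendsto_atTop
    have key := fun c => lim_le ((hB.comp (hFF hnc hnp)).comp (hs c).nat_tendsto_atTop)
      (tendsto_const_nhds.congr fun i => (hxu c i).symm)
      (hD.comp (hs c).nat_tendsto_atTop) (hz A c)
    have h3 : r / (4 * (‖A‖ + 1)) * ‖A‖ ≤ r / 4 := by
      rw [div_mul_eq_mul_div, div_le_div_iff₀ (by positivity) (by positivity)]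
      nlinarith [norm_nonneg A]
    refine hball ?_ hBS
    rw [mem_ball_iff_norm]
    refine (norm_le_sum _).trans_lt ?_
    have h4 : ∀ i : Fin 3, ‖(B - D ∘L A) (Pi.single i 1)‖ ≤ r / 4 := fun i => by
      have := (key i).trans h3
      simpa using this
    rw [Fin.sum_univ_three]
    linarith [h4 0, h4 1, h4 2]

theorem noembed {x : K → G} (hx : ∀ p, Adm p (x p)) {S0 : Set L} (h0 : S0.Countable)
    {S S' : Submodule ℝ L} (hS : S0 ⊆ S)
    (hg : ∀ t, ¬ {p | ∃ q, Good S0 S' t (x p) q (x q)}.Countable) :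
    ¬ ∃ (T : Sp x S →L[ℝ] Sp x S') (C : ℝ), ∀ f, ‖f‖ ≤ C * ‖T f‖ := by
  rintro ⟨T, C, hT⟩
  obtain ⟨R, hR, hTR⟩ := ContinuousLinearMap.bound (𝕜 := ℝ) (𝕜₂ := ℝ) (E := Sp x S)
    (F := Sp x S') T
  choose φ hφ hφn using fun (m : ℕ) (j : Fin 3) => exists_extension_norm_eq (Sp x S)
    ((ContinuousLinearMap.proj j : V →L[ℝ] ℝ) ∘L evalCLM ℝ m ∘L (Sp x S').subtypeL ∘L T)
  let Φ : ℕ → G →L[ℝ] V := fun m => ContinuousLinearMap.pi (φ m)
  have hΦ : ∀ m (f : Sp x S), Φ m f = (T f : G) m := fun m f => funext fun j => hφ m j f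
  have hΦn : ∀ m, ‖Φ m‖ ≤ R := by
    intro m
    refine (Φ m).opNorm_le_bound hR.le fun f => ?_
    refine (pi_norm_le_iff_of_nonneg (by positivity)).2 fun j => (φ m j).le_of_opNorm_le ?_ f
    rw [hφn]
    refine ContinuousLinearMap.opNorm_le_bound _ hR.le fun g => ?_
    exact (norm_le_pi_norm ((T g : G) m) j).trans ((norm_coe_le_norm _ m).trans (hTR g))
  let t : ℕ → ℕ → L := fun m n => Φ m ∘L sg n
  have hc : Cand t := by
    refine ⟨9 * R, |C|, fun m s => (rowsV (Φ m) s).trans (by linarith [hΦn m]),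
      fun n v b hb => ?_⟩
    have h1 : ‖(T ⟨sg n v, sg_mem x S n v⟩ : G)‖ ≤ b :=
      (norm_le ((norm_nonneg _).trans (hb 0))).2 fun m => by
        rw [← hΦ]; exact hb m
    refine (norm_le_sg n v).trans ((hT ⟨sg n v, sg_mem x S n v⟩).trans ?_)
    exact mul_le_mul (le_abs_self C) h1 (norm_nonneg (T ⟨sg n v, sg_mem x S n v⟩))
      (abs_nonneg C)
  refine hg t ((h0.biUnion fun A _ => countable_iUnion fun m =>
    cnt (Φ m) (fun p => ap (x p) A) (R := ‖A‖) (fun p => ?_) fun p q hpq => ?_).mono ?_)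
  · refine (norm_le (norm_nonneg _)).2 fun n => ?_
    exact (A.le_of_opNorm_le_of_le le_rfl ((norm_coe_le_norm _ n).trans (hx p).1)).trans
      (mul_one _).le
  · refine (adm_fin (hx p) (hx q) hpq).subset fun n hn => ⟨fun h => hn.1 ?_, fun h => hn.2 ?_⟩ <;>
      simp [h]
  · rintro p ⟨q, hq⟩
    obtain ⟨A, hA, hB⟩ := hq hc
    by_contra h
    simp only [mem_iUnion, mem_ofPred_eq, not_exists, not_not] at h
    obtain ⟨B, hBS, hl⟩ := mem_Sp.1 (T ⟨ap (x p) A, ap_mem hx (hS hA) p⟩).2 q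
    refine hB B hBS (hl.congr fun m => ?_)
    rw [← hΦ, h A hA m]
    rfl

end Pool.Agent.H.MP_aca27d_an
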