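import Mathlib
import Pool.Agent.H.MP_aca27d_an.C

set_option autoImplicit false

namespace Pool.Agent.H.MP_aca27d_an

open Set Filter Topology BoundedContinuousFunction Cardinal

noncomputable def cr : V →ₗ[ℝ] L :=
  (LinearMap.toContinuousLinearMap : (V →ₗ[ℝ] V) ≃ₗ[ℝ] L).toLinearMap ∘ₗ crossProduct

theorem cr_apply (u v : V) : cr u v = crossProduct u v := rfl

noncomputable def SI : Submodule ℝ L := Submodule.span ℝ {ContinuousLinearMap.id ℝ V}
noncomputable def SK : Submodule ℝ L := LinearMap.range cr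
noncomputable def e (i : Fin 3) : V := Pi.single i 1

theorem eq_zero {D : L} (h : ∀ i, D (e i) = 0) : D = 0 :=
  norm_le_zero_iff.1 ((norm_le_sum D).trans (Finset.sum_eq_zero fun i _ => norm_eq_zero.2 (h i)).le)

theorem ne (i : Fin 3) : ‖e i‖ ≤ 1 := by simp [e, Pi.norm_single]

theorem c01 : cr (e 0) (e 1) = e 2 := by
  ext i; fin_cases i <;> simp [cr_apply, cross_apply, e]
theorem c12 : cr (e 1) (e 2) = e 0 := by
  ext i; fin_cases i <;> simp [cr_apply, cross_apply, e]
theorem c20 : cr (e 2) (e 0) = e 1 := by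
  ext i; fin_cases i <;> simp [cr_apply, cross_apply, e]
theorem e_ne (i : Fin 3) : e i ≠ 0 := fun h => by simpa [e] using congrFun h i

theorem exists_family : ∃ x : K → G, (∀ p, Adm p (x p)) ∧
    (∀ t, ¬ {p | ∃ q, Good {ContinuousLinearMap.id ℝ V} SK t (x p) q (x q)}.Countable) ∧
    (∀ t, ¬ {p | ∃ q, Good (range fun i => cr (e i)) SI t (x p) q (x q)}.Countable) := by
  classical
  have hL : #L ≤ continuum := by
    rw [(Module.finBasis ℝ L).equivFun.toEquiv.cardinal_eq]
    generalize Module.finrank ℝ L = d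
    calc #(Fin d → ℝ) ≤ #(ℕ → ℝ) := mk_le_of_surjective (f := fun g i => g i.1)
          (Function.Injective.surjective_comp_right Fin.val_injective)
      _ = _ := by simp [mk_real]
  have hC : #(Bool × (ℕ → ℕ → L)) ≤ continuum := by
    calc #(Bool × (ℕ → ℕ → L)) = 2 * (#L ^ aleph0) ^ aleph0 := by simp
      _ ≤ 2 * (continuum ^ aleph0) ^ aleph0 :=
          mul_le_mul_right (power_le_power_right (power_le_power_right hL)) _
      _ = _ := by simp
  obtain ⟨x, hx, h⟩ := recur (K := K) (C := Bool × (ℕ → ℕ → L)) (X := G)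
    (mk_Icc_real zero_lt_one) hC Adm adm_zero
    (fun c _ x q y => (c.1 = true → Good {ContinuousLinearMap.id ℝ V} SK c.2 x q y) ∧
      (c.1 = false → Good (range fun i => cr (e i)) SI c.2 x q y)) (by
      rintro ⟨b, t⟩ p y hy
      cases b
      · obtain ⟨x, q, h1, h2⟩ := step (S0 := range fun i => cr (e i)) (S := SI) (by
          intro D hD
          by_contra hc
          push Not at hc
          refine hD (eq_zero fun i => ?_)
          fin_cases i
          · exact c12 ▸ hc _ ⟨1, rfl⟩ _ (ne 2)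
          · exact c20 ▸ hc _ ⟨2, rfl⟩ _ (ne 0)
          · exact c01 ▸ hc _ ⟨0, rfl⟩ _ (ne 1)) (by
          intro D hD
          refine ⟨_, ⟨0, rfl⟩, fun h => ?_⟩
          obtain ⟨c, hc⟩ := Submodule.mem_span_singleton.1 h
          have h0 := congrArg (fun T : L => T (e 0)) hc
          have h1 := congrArg (fun T : L => T (e 1)) hc
          simp only [ContinuousLinearMap.comp_apply, cr_apply, cross_self, map_zero,
            _root_.smul_apply, ContinuousLinearMap.id_apply, smul_eq_zero, e_ne, or_false] at h0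
          simp only [ContinuousLinearMap.comp_apply, c01, h0, zero_smul, _root_.zero_apply] at h1
          exact e_ne 2 (hD _ h1.symm)) t p y hy
        exact ⟨x, q, h1, by simp, fun _ => h2⟩
      · obtain ⟨x, q, h1, h2⟩ := step (S0 := {ContinuousLinearMap.id ℝ V}) (S := SK) (by
          intro D hD
          by_contra hc
          push Not at hc
          exact hD (eq_zero fun i => hc _ rfl _ (ne i))) (by
          intro D hD
          refine ⟨_, rfl, fun ⟨u, hu⟩ => ?_⟩
          rw [ContinuousLinearMap.comp_id] at hu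
          have h0 : u = 0 := hD u (by rw [← hu, cr_apply, cross_self])
          exact e_ne 0 (hD _ (by rw [← hu, h0, map_zero]; rfl))) t p y hy
        exact ⟨x, q, h1, fun _ => h2, by simp⟩)
  refine ⟨x, hx, fun t hc => h (true, t) (hc.mono ?_), fun t hc => h (false, t) (hc.mono ?_)⟩
  · rintro p ⟨q, hq, -⟩
    exact ⟨q, hq rfl⟩
  · rintro p ⟨q, -, hq⟩
    exact ⟨q, hq rfl⟩

noncomputable def mk2 (x : K → G) (a b : V) : (Sp x SI × Sp x SI) →L[ℝ] Sp x SK :=
  ((cr a).compLeftContinuousBounded ℕ ∘L (Sp x SI).subtypeL ∘L ContinuousLinearMap.fst ℝ _ _ +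
    (cr b).compLeftContinuousBounded ℕ ∘L (Sp x SI).subtypeL ∘L
      ContinuousLinearMap.snd ℝ _ _).codRestrict (Sp x SK) (by
    rintro ⟨f, g⟩
    refine mem_Sp.2 fun p => ?_
    obtain ⟨A, hA, h1⟩ := mem_Sp.1 f.2 p
    obtain ⟨B, hB, h2⟩ := mem_Sp.1 g.2 p
    obtain ⟨c, rfl⟩ := Submodule.mem_span_singleton.1 hA
    obtain ⟨d, rfl⟩ := Submodule.mem_span_singleton.1 hB
    refine ⟨cr (c • a + d • b), ⟨_, rfl⟩, ?_⟩
    have := (((cr a).continuous.tendsto 0).comp h1).add (((cr b).continuous.tendsto 0).comp h2)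
    rw [map_zero, map_zero, add_zero] at this
    refine this.congr fun n => ?_
    simp
    abel)

theorem mk2_apply (x : K → G) (a b : V) (f : Sp x SI × Sp x SI) (n : ℕ) :
    (mk2 x a b f : G) n = cr a ((f.1 : G) n) + cr b ((f.2 : G) n) := rfl

theorem blow (f g : V) {b : ℝ} (h1 : ‖cr (e 0) f + cr (e 1) g‖ ≤ b)
    (h2 : ‖cr (e 2) f + cr (e 0) g‖ ≤ b) : ‖f‖ ≤ 2 * b ∧ ‖g‖ ≤ 2 * b := by
  have hb : 0 ≤ b := (norm_nonneg _).trans h1
  have a0 := abs_le.1 ((norm_le_pi_norm _ 0).trans h1)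
  have a1 := abs_le.1 ((norm_le_pi_norm _ 1).trans h1)
  have a2 := abs_le.1 ((norm_le_pi_norm _ 2).trans h1)
  have b0 := abs_le.1 ((norm_le_pi_norm _ 0).trans h2)
  have b1 := abs_le.1 ((norm_le_pi_norm _ 1).trans h2)
  have b2 := abs_le.1 ((norm_le_pi_norm _ 2).trans h2)
  simp [cr_apply, cross_apply, e] at a0 a1 a2 b0 b1 b2
  constructor <;> refine (pi_norm_le_iff_of_nonneg (by positivity)).2 fun i => ?_ <;>
    fin_cases i <;> simp [abs_le] <;> constructor <;> linarith [a0.1, a0.2, a1.1, a1.2, a2.1, a2.2,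
      b0.1, b0.2, b1.1, b1.2, b2.1, b2.2]

theorem embed (x : K → G) : ∃ (T : (Sp x SI × Sp x SI) →L[ℝ] (Sp x SK × Sp x SK)) (C : ℝ),
    ∀ f, ‖f‖ ≤ C * ‖T f‖ := by
  refine ⟨(mk2 x (e 0) (e 1)).prod (mk2 x (e 2) (e 0)), 2, fun f => ?_⟩
  obtain ⟨b, hb⟩ : ∃ b, b = ‖(mk2 x (e 0) (e 1)).prod (mk2 x (e 2) (e 0)) f‖ := ⟨_, rfl⟩
  have h1 : ‖(mk2 x (e 0) (e 1) f : G)‖ ≤ b := hb ▸ le_max_left _ _
  have h2 : ‖(mk2 x (e 2) (e 0) f : G)‖ ≤ b := hb ▸ le_max_right _ _
  have hb0 : 0 ≤ b := (norm_nonneg _).trans h1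
  have h3 := fun n => blow ((f.1 : G) n) ((f.2 : G) n) ((norm_coe_le_norm _ n).trans h1)
    ((norm_coe_le_norm _ n).trans h2)
  rw [← hb]
  refine max_le ?_ ?_
  · exact (norm_le (f := (f.1 : G)) (by positivity)).2 fun n => (h3 n).1
  · exact (norm_le (f := (f.2 : G)) (by positivity)).2 fun n => (h3 n).2

end Pool.Agent.H.MP_aca27d_an
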